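import Pool.Agent.Lib.GBC.Lam.Pi
import Pool.Agent.Lib.GBC.Q.LDim
import Pool.Agent.Lib.GBC.T.Wt
import Pool.Agent.Lib.HYP.L.Gram

/-!
Module Lam.ChiS of GBC. The Euler characteristic of `S = A[θ]` and `t ^ z B_L`.

PROOF. The coordinates in `1, θ, …, θ ^ (n - 1)`, `n = 2 g + 1`, are a `k`-linear isomorphism
`e : L ≃ (Fin n → K)` (`AdjoinRoot.powerBasis' hm`, the coordinates are the coefficients of
`AdjoinRoot.modByMonicHom hm l`; restrict scalars). It maps `SA G f` to `pi A` (an element of `S` has a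
representative of degree `< n` over `A`: reduce modulo the monic `f`, and its coordinates are in `A`)
and `BL z` to `pi (M (z - 2 m i))`. By `chi_map`, `chi_pi` and `chi_eq`, `chiFin`:
`chi = ∑_{i < n} (chi A (M 0) + d (z - 2 m i)) = n chi A (M 0) + d (n z - 2 m g n)`, as
`∑_{i ≤ 2 g} i = g (2 g + 1)`.
-/

set_option autoImplicit false

open Polynomial

namespace Pool.Agent.GBC

open Pool.Agent.BSDP Pool.Agent.BSDFF Pool.Agent.HYP

variable {k K : Type} [Field k] [Field K] [Algebra k K] {G : Geo k K} {g m : ℕ} {D : Data G g}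
  {f : G.A[X]}

/-- the coordinates, as a linear map over `k` -/
private noncomputable def ChiS_e {F : K[X]} (hF : F.Monic) :
    AdjoinRoot F ≃ₗ[k] (Fin F.natDegree → K) :=
  ((AdjoinRoot.powerBasisAux' hF).equivFun).restrictScalars k

private theorem ChiS_e_apply {F : K[X]} (hF : F.Monic) (l : AdjoinRoot F) (i : Fin F.natDegree) :
    ChiS_e (k := k) hF l i = (AdjoinRoot.modByMonicHom hF l).coeff i := rfl

private theorem ChiS_coeff {F : K[X]} (hF : F.Monic) (l : AdjoinRoot F) (i : ℕ)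
    (hi : F.natDegree ≤ i) : (AdjoinRoot.modByMonicHom hF l).coeff i = 0 := by
  obtain ⟨P, rfl⟩ := AdjoinRoot.mk_surjective l
  rw [AdjoinRoot.modByMonicHom_mk]
  apply coeff_eq_zero_of_degree_lt
  refine lt_of_lt_of_le (degree_modByMonic_lt P hF) ?_
  rw [degree_eq_natDegree hF.ne_zero]
  exact_mod_cast hi

private theorem ChiS_BL {F : K[X]} (hF : F.Monic) (z : ℤ) :
    (BL G m hF z).map (ChiS_e (k := k) hF : AdjoinRoot F →ₗ[k] (Fin F.natDegree → K)) =
      Submodule.pi Set.univ fun i : Fin F.natDegree => G.M (z - 2 * m * (i : ℕ)) := by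
  ext v
  constructor
  · rintro ⟨l, hl, rfl⟩ i -
    exact hl i
  · intro hv
    refine ⟨(ChiS_e (k := k) hF).symm v, ?_, LinearEquiv.apply_symm_apply _ _⟩
    intro i
    rcases lt_or_ge i F.natDegree with h | h
    · have h1 := ChiS_e_apply (k := k) hF ((ChiS_e (k := k) hF).symm v) ⟨i, h⟩
      rw [LinearEquiv.apply_symm_apply] at h1
      rw [← h1]
      exact hv ⟨i, h⟩ (Set.mem_univ _)
    · rw [ChiS_coeff hF _ i h]
      exact (G.M _).zero_mem

private theorem ChiS_SA (hf : f.Monic) (hm : (G.fK f).Monic) :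
    (SA G f).map (ChiS_e (k := k) hm : AdjoinRoot (G.fK f) →ₗ[k] (Fin (G.fK f).natDegree → K)) =
      Submodule.pi Set.univ fun _ : Fin (G.fK f).natDegree => G.A.toSubmodule := by
  ext v
  constructor
  · rintro ⟨l, ⟨s, rfl⟩, rfl⟩ i -
    obtain ⟨P, rfl⟩ := AdjoinRoot.mk_surjective s
    change (AdjoinRoot.modByMonicHom hm (bc (algebraMap G.A K) f (AdjoinRoot.mk f P))).coeff i ∈ _
    rw [bc_mk]
    erw [AdjoinRoot.modByMonicHom_mk]
    change (P.map (algebraMap G.A K) %ₘ f.map (algebraMap G.A K)).coeff i ∈ _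
    rw [← map_modByMonic _ hf, coeff_map]
    exact ((P %ₘ f).coeff i).2
  · intro hv
    refine ⟨(ChiS_e (k := k) hm).symm v, ?_, LinearEquiv.apply_symm_apply _ _⟩
    set l := (ChiS_e (k := k) hm).symm v with hl
    have h1 : ∀ i : ℕ, (AdjoinRoot.modByMonicHom hm l).coeff i ∈ G.A := by
      intro i
      rcases lt_or_ge i (G.fK f).natDegree with h | h
      · have h1 := ChiS_e_apply (k := k) hm ((ChiS_e (k := k) hm).symm v) ⟨i, h⟩
        rw [LinearEquiv.apply_symm_apply] at h1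
        rw [hl, ← h1]
        exact hv ⟨i, h⟩ (Set.mem_univ _)
      · rw [ChiS_coeff hm _ i h]
        exact G.A.zero_mem
    have h2 : AdjoinRoot.modByMonicHom hm l ∈ Polynomial.lifts (algebraMap G.A K) := by
      rw [Polynomial.lifts_iff_coeff_lifts]
      intro i
      exact ⟨⟨_, h1 i⟩, rfl⟩
    obtain ⟨Q, hQ⟩ := (Polynomial.mem_lifts _).1 h2
    refine ⟨AdjoinRoot.mk f Q, ?_⟩
    rw [bc_mk, hQ]
    exact AdjoinRoot.mk_leftInverse hm l

theorem chi_SA (hf : Fam₀ D m f) (hm : (G.fK f).Monic) (z : ℤ) :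
    ChiFin (SA G f) (BL G m hm z) ∧
      chi (SA G f) (BL G m hm z) = (2 * g + 1) * chi G.A.toSubmodule (G.M 0) +
        G.d * ((2 * g + 1) * z - 2 * m * g * (2 * g + 1)) := by
  have hn : (G.fK f).natDegree = 2 * g + 1 := by
    change (f.map (algebraMap G.A K)).natDegree = 2 * g + 1
    rw [hf.monic.natDegree_map, hf.deg]
  obtain ⟨h1, h2⟩ := chi_map (ChiS_e (k := k) hm) (SA G f) (BL G m hm z)
  rw [ChiS_SA hf.monic hm, ChiS_BL hm z] at h1 h2
  obtain ⟨h3, h4⟩ := chi_pi (fun _ : Fin (G.fK f).natDegree => G.A.toSubmodule)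
    (fun i : Fin (G.fK f).natDegree => G.M (z - 2 * m * (i : ℕ))) (fun i => G.chiFin _)
  refine ⟨h1.1 h3, ?_⟩
  rw [← h2, h4, Finset.sum_congr rfl fun (i : Fin (G.fK f).natDegree) _ =>
    G.chi_eq (z - 2 * m * (i : ℕ))]
  rw [Fin.sum_univ_eq_sum_range (fun i : ℕ => chi G.A.toSubmodule (G.M 0) +
    G.d * (z - 2 * m * (i : ℤ))), hn]
  have h5 : ∀ n : ℕ, ∑ i ∈ Finset.range (n + 1), (chi G.A.toSubmodule (G.M 0) +
      G.d * (z - 2 * m * (i : ℤ))) = (n + 1) * chi G.A.toSubmodule (G.M 0) +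
        G.d * ((n + 1) * z - m * n * (n + 1)) := by
    intro n
    induction n with
    | zero => simp
    | succ n ih =>
      rw [Finset.sum_range_succ, ih]
      push_cast
      ring
  rw [h5 (2 * g)]
  push_cast
  ring

end Pool.Agent.GBC
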