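import Pool.Agent.Lib.GBC.TDef
import Pool.Agent.Lib.HYP.L.Tau

/-!
Module Lam.Ded of GBC. `S = A[x] / (f)` is a Dedekind domain if `f` is regular.

PROOF. General statement for a Dedekind domain `A`. `S` is a domain by hypothesis, finite over `A`
(`f` monic), so Noetherian. `IsDedekindDomainDvr S` (Mathlib/RingTheory/DedekindDomain/Dvr.lean gives
`IsDedekindDomain S`): let `q ≠ 0` be a prime ideal of `S`; `P = q.comap` is a prime ideal of `A`, not
`0` (`Ideal.comap_ne_bot_of_integral_mem`-like: `S` is integral over `A`, `q ≠ 0`), so `P` is maximal and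
`q` is maximal. By `IsDiscreteValuationRing.TFAE` it is enough that the maximal ideal of `S_q` is
principal (see the proof of `isDedekindDomainDvr.of_formallyUnramified` in
Mathlib/RingTheory/Unramified/Dedekind.lean). The preimage of `q` in `A[x]` is the ideal
`m = (P, p)`, `p ∈ A[x]` monic of positive degree (the image of `m` in `(A / P)[x]` is a maximal ideal
`(p̄)`, `p̄` monic irreducible; lift it to a monic `p` of the same degree). Let `π ∈ P`, `π ∉ P ^ 2`;
`P = (π) + P ^ 2`, and `P S_q` is generated by `π` (there is `s ∈ A`, `s ∉ P`, with `s P ≤ (π)`: write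
`(π) = P J`, `J` not contained in `P`, `s ∈ J`, `s ∉ P`).
`f ∈ m` and, by `RegI P f`, `f ∉ m ^ 2` (`m = P.map C ⊔ span {p}`). Write
`f = a + p b` with `a ∈ P.map C`, `b ∈ A[x]`; `s a = π a'` with `a' ∈ A[x]`. So
`s f = π a' + s p b`. In `S`: `0 = π a' + s p b`. If `b ∉ m` then `s b` is a unit in `S_q` and
`p = - π a' / (s b)`, so the maximal ideal `q S_q = (π, p)` is `(π)`. If `b ∈ m` then `a ∉ m ^ 2` (as
`f ∉ m ^ 2` and `p b ∈ m ^ 2`), so `a' ∉ m` (if `a' ∈ m` then `s a = π a' ∈ m ^ 2`, `s` is a unit modulo `m ^ 2`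
[`s ∉ m`, `m` maximal], so `a ∈ m ^ 2`); so `π = - s p b / a' ∈ (p)` in `S_q` and `q S_q = (p)`.
-/

set_option autoImplicit false

open Polynomial

namespace Pool.Agent.GBC

/-- The preimage of a prime of `A[x] / (f)` is `(P, p)`, `p` monic of positive degree. -/
private theorem Ded_exists_monic {A : Type} [CommRing A] {f : A[X]} (hf : f.Monic) (P : Ideal A)
    [hP : P.IsMaximal] (m : Ideal A[X]) (hfm : f ∈ m) (hm : m ≠ ⊤)
    (hPm : P.map (C : A →+* A[X]) ≤ m) :
    ∃ p : A[X], p.Monic ∧ 1 ≤ p.natDegree ∧ m = P.map (C : A →+* A[X]) ⊔ Ideal.span {p} := by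
  letI : Field (A ⧸ P) := Ideal.Quotient.field P
  set r : A[X] →+* (A ⧸ P)[X] := mapRingHom (Ideal.Quotient.mk P) with hr
  have hrs : Function.Surjective r := by
    rw [hr, coe_mapRingHom]
    exact Polynomial.map_surjective _ Ideal.Quotient.mk_surjective
  have hker : RingHom.ker r ≤ m := by
    refine le_trans ?_ hPm
    intro x hx
    rw [RingHom.mem_ker] at hx
    rw [Ideal.mem_map_C_iff]
    intro n
    have h1 : (r x).coeff n = 0 := by rw [hx, coeff_zero]
    rw [hr, coe_mapRingHom, coeff_map] at h1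
    exact Ideal.Quotient.eq_zero_iff_mem.1 h1
  have hkerP : ∀ x, r x = 0 → x ∈ P.map (C : A →+* A[X]) := by
    intro x hx
    rw [Ideal.mem_map_C_iff]
    intro n
    have h1 : (r x).coeff n = 0 := by rw [hx, coeff_zero]
    rw [hr, coe_mapRingHom, coeff_map] at h1
    exact Ideal.Quotient.eq_zero_iff_mem.1 h1
  have hmem : ∀ x, r x ∈ m.map r → x ∈ m := by
    intro x hx
    obtain ⟨y, hy, hyx⟩ := (Ideal.mem_map_iff_of_surjective r hrs).1 hx
    have h1 : x - y ∈ RingHom.ker r := by
      rw [RingHom.mem_ker, map_sub, hyx, sub_self]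
    have h2 := m.add_mem (hker h1) hy
    rwa [sub_add_cancel] at h2
  obtain ⟨g, hg⟩ := (IsPrincipalIdealRing.principal (m.map r)).principal
  have hg' : m.map r = Ideal.span {g} := hg
  have hrf : r f ≠ 0 := by
    have h1 : (r f).Monic := hf.map _
    exact h1.ne_zero
  have hg0 : g ≠ 0 := by
    rintro rfl
    have h1 := Ideal.mem_map_of_mem r hfm
    rw [hg', Ideal.mem_span_singleton, zero_dvd_iff] at h1
    exact hrf h1
  have hlc : g.leadingCoeff⁻¹ ≠ 0 := inv_ne_zero (leadingCoeff_ne_zero.2 hg0)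
  set g1 : (A ⧸ P)[X] := g * C g.leadingCoeff⁻¹ with hg1
  have hg1m : g1.Monic := monic_mul_leadingCoeff_inv hg0
  have hspan : m.map r = Ideal.span {g1} := by
    rw [hg']
    apply le_antisymm
    · rw [Ideal.span_singleton_le_span_singleton]
      refine ⟨C g.leadingCoeff, ?_⟩
      rw [hg1, mul_assoc, ← C_mul, inv_mul_cancel₀ (leadingCoeff_ne_zero.2 hg0), C_1, mul_one]
    · rw [Ideal.span_singleton_le_span_singleton]
      exact ⟨C g.leadingCoeff⁻¹, rfl⟩
  have hlift : g1 ∈ lifts (Ideal.Quotient.mk P) := by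
    obtain ⟨x, hx⟩ := hrs g1
    exact (mem_lifts _).2 ⟨x, hx⟩
  obtain ⟨p, hp1, hp2, hp3⟩ := lifts_and_natDegree_eq_and_monic hlift hg1m
  have hpr : r p = g1 := hp1
  refine ⟨p, hp3, ?_, ?_⟩
  · rw [hp2]
    by_contra hlt
    have h0 : g1.natDegree = 0 := by omega
    have h1 : g1 = 1 := eq_one_of_monic_natDegree_zero hg1m h0
    apply hm
    rw [Ideal.eq_top_iff_one]
    apply hmem
    rw [hspan, h1, map_one]
    exact Ideal.mem_span_singleton_self _
  · apply le_antisymm
    · intro x hx
      have h1 := Ideal.mem_map_of_mem r hx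
      rw [hspan, Ideal.mem_span_singleton] at h1
      obtain ⟨y, hy⟩ := h1
      obtain ⟨z, rfl⟩ := hrs y
      have h2 : x - p * z ∈ P.map (C : A →+* A[X]) := by
        apply hkerP
        rw [map_sub, map_mul, hpr, hy, sub_self]
      have h3 : x = (x - p * z) + p * z := by ring
      rw [h3]
      exact Ideal.add_mem _ (Ideal.mem_sup_left h2)
        (Ideal.mem_sup_right (Ideal.mul_mem_right _ _ (Ideal.mem_span_singleton_self _)))
    · refine sup_le hPm ?_
      rw [Ideal.span_singleton_le_iff_mem]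
      apply hmem
      rw [hpr, hspan]
      exact Ideal.mem_span_singleton_self _

/-- A nonzero prime of a Dedekind domain is locally principal. -/
private theorem Ded_exists_unif {A : Type} [CommRing A] [IsDedekindDomain A] (P : Ideal A)
    (hP : P.IsMaximal) (hP0 : P ≠ ⊥) :
    ∃ π ∈ P, ∃ s, s ∉ P ∧ ∀ a ∈ P, ∃ a', s * a = π * a' := by
  obtain ⟨π, hπ, hπ2⟩ := SetLike.exists_of_lt (Ideal.pow_lt_self P hP0 hP.ne_top 2 le_rfl)
  obtain ⟨J, hJ⟩ := Ideal.dvd_span_singleton.2 hπ
  have hJP : ¬ J ≤ P := by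
    intro hle
    apply hπ2
    have h1 : π ∈ Ideal.span {π} := Ideal.mem_span_singleton_self _
    rw [hJ] at h1
    rw [sq]
    exact Ideal.mul_mono_right hle h1
  obtain ⟨s, hsJ, hsP⟩ := SetLike.not_le_iff_exists.mp hJP
  refine ⟨π, hπ, s, hsP, ?_⟩
  intro a ha
  have h1 : s * a ∈ Ideal.span {π} := by
    rw [hJ, mul_comm s a]
    exact Ideal.mul_mem_mul ha hsJ
  obtain ⟨a', ha'⟩ := Ideal.mem_span_singleton'.1 h1
  exact ⟨a', by rw [← ha', mul_comm]⟩

theorem isDedekind_adjoinRoot {A : Type} [CommRing A] [IsDedekindDomain A] {f : A[X]}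
    (hf : f.Monic) (hdom : IsDomain (AdjoinRoot f))
    (hreg : ∀ P : Ideal A, P.IsMaximal → RegI P f) : IsDedekindDomain (AdjoinRoot f) := by
  classical
  have hfin : Module.Finite A (AdjoinRoot f) := hf.finite_adjoinRoot
  have hint : Algebra.IsIntegral A (AdjoinRoot f) := Algebra.IsIntegral.of_finite A _
  have hnoeth : IsNoetherianRing (AdjoinRoot f) := IsNoetherianRing.of_finite A _
  suffices hdvr : IsDedekindDomainDvr (AdjoinRoot f) from inferInstance
  refine { hnoeth with is_dvr_at_nonzero_prime := ?_ }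
  intro q hq hqp
  let q' := IsLocalRing.maximalIdeal (Localization.AtPrime q)
  suffices hprin : q'.IsPrincipal from
    ((IsDiscreteValuationRing.TFAE (Localization.AtPrime q)
      (IsLocalization.AtPrime.not_isField (AdjoinRoot f) hq (Localization.AtPrime q))).out 4 0).mp
      hprin
  have hP0 : q.under A ≠ ⊥ := q.under_ne_bot A hq
  have hP : (q.under A).IsMaximal := (hqp.under A).isMaximal hP0
  have hqm : q.IsMaximal := Ideal.isMaximal_of_isIntegral_of_isMaximal_comap q hP
  set P := q.under A with hPdef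
  set mk : A[X] →+* AdjoinRoot f := AdjoinRoot.mk f with hmk
  have hmks : Function.Surjective mk := AdjoinRoot.mk_surjective
  set m : Ideal A[X] := q.comap mk with hm
  have hmm : m.IsMaximal := Ideal.comap_isMaximal_of_surjective mk hmks
  have hfm : f ∈ m := by
    rw [hm, Ideal.mem_comap, hmk, AdjoinRoot.mk_self]
    exact q.zero_mem
  have hPm : P.map (C : A →+* A[X]) ≤ m := by
    rw [Ideal.map_le_iff_le_comap]
    intro a ha
    exact ha
  obtain ⟨p, hpm, hpd, hmp⟩ := Ded_exists_monic hf P m hfm hmm.ne_top hPm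
  have hreg2 : f ∉ m ^ 2 := by
    rw [hmp]
    exact hreg P hP p hpm hpd
  obtain ⟨π, hπ, s, hsP, hs⟩ := Ded_exists_unif P hP hP0
  have hpmem : p ∈ m := by
    rw [hmp]
    exact Ideal.mem_sup_right (Ideal.mem_span_singleton_self _)
  have hπm : C π ∈ m := hPm (Ideal.mem_map_of_mem _ hπ)
  have hsm : C s ∉ m := fun h => hsP h
  -- division of elements of `P A[x]`
  have hdiv : ∀ a ∈ P.map (C : A →+* A[X]), ∃ a', C s * a = C π * a' := by
    intro a ha
    rw [Ideal.mem_map_C_iff] at ha
    have h1 : C s * a ∈ (Ideal.span {π}).map (C : A →+* A[X]) := by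
      rw [Ideal.mem_map_C_iff]
      intro n
      rw [coeff_C_mul]
      obtain ⟨a', ha'⟩ := hs _ (ha n)
      rw [ha']
      exact Ideal.mul_mem_right _ _ (Ideal.mem_span_singleton_self _)
    rw [Ideal.map_span, Set.image_singleton] at h1
    obtain ⟨a', ha'⟩ := Ideal.mem_span_singleton'.1 h1
    exact ⟨a', by rw [← ha', mul_comm]⟩
  obtain ⟨a, ha, b0, hb0, hab⟩ := Submodule.mem_sup.1 (hmp ▸ hfm)
  obtain ⟨b, rfl⟩ := Ideal.mem_span_singleton'.1 hb0
  obtain ⟨a', ha'⟩ := hdiv a ha
  -- the localization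
  set Φ : A[X] →+* Localization.AtPrime q :=
    (algebraMap (AdjoinRoot f) (Localization.AtPrime q)).comp mk with hΦ
  have hunit : ∀ x, x ∉ m → IsUnit (Φ x) := by
    intro x hx
    exact IsLocalization.map_units (Localization.AtPrime q) (⟨mk x, hx⟩ : q.primeCompl)
  have hq' : q' = m.map Φ := by
    have h1 : q' = q.map (algebraMap (AdjoinRoot f) (Localization.AtPrime q)) :=
      Localization.AtPrime.map_eq_maximalIdeal.symm
    rw [h1, hΦ, ← Ideal.map_map, hm, Ideal.map_comap_of_surjective mk hmks]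
  have hle1 : (P.map (C : A →+* A[X])).map Φ ≤ Ideal.span {Φ (C π)} := by
    rw [Ideal.map_le_iff_le_comap]
    intro x hx
    obtain ⟨x', hx'⟩ := hdiv x hx
    rw [Ideal.mem_comap]
    have h1 : Φ (C s) * Φ x = Φ (C π) * Φ x' := by rw [← map_mul, ← map_mul, hx']
    obtain ⟨u, hu⟩ := hunit _ hsm
    have h2 : Φ x = Φ (C π) * (Φ x' * (u⁻¹ : (Localization.AtPrime q)ˣ)) := by
      rw [← mul_assoc, ← h1, ← hu]
      rw [mul_comm (u : Localization.AtPrime q) (Φ x), mul_assoc, Units.mul_inv, mul_one]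
    rw [h2]
    exact Ideal.mul_mem_right _ _ (Ideal.mem_span_singleton_self _)
  have hΦf : Φ f = 0 := by
    rw [hΦ, RingHom.comp_apply, hmk, AdjoinRoot.mk_self, map_zero]
  have hrel : Φ (C π) * Φ a' + Φ (C s) * (Φ b * Φ p) = 0 := by
    have h1 : C s * f = C π * a' + C s * (b * p) := by
      rw [← hab, mul_add, ha']
    have h2 := congrArg Φ h1
    rw [map_mul, hΦf, mul_zero, map_add, map_mul, map_mul, map_mul] at h2
    exact h2.symm
  have hmapm : m.map Φ = (P.map (C : A →+* A[X])).map Φ ⊔ Ideal.span {Φ p} := by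
    conv_lhs => rw [hmp]
    rw [Ideal.map_sup, Ideal.map_span, Set.image_singleton]
  have hΦm : ∀ x ∈ m, Φ x ∈ q' := by
    intro x hx
    rw [hq']
    exact Ideal.mem_map_of_mem _ hx
  by_cases hb : b ∈ m
  · -- then `a'` is a unit and the maximal ideal is generated by `p`
    have ham2 : a ∉ m ^ 2 := by
      intro h
      apply hreg2
      rw [← hab, sq]
      rw [sq] at h
      exact Ideal.add_mem _ h (Ideal.mul_mem_mul hb hpmem)
    have ha'm : a' ∉ m := by
      intro h
      apply ham2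
      have h1 : C s * a ∈ m ^ 2 := by
        rw [ha', sq]
        exact Ideal.mul_mem_mul hπm h
      obtain ⟨r, z, hz, hrz⟩ := hmm.exists_inv hsm
      have h2 : a = r * (C s * a) + z * a := by
        calc a = (r * C s + z) * a := by rw [hrz, one_mul]
          _ = _ := by ring
      rw [h2]
      refine Ideal.add_mem _ (Ideal.mul_mem_left _ _ h1) ?_
      rw [sq]
      exact Ideal.mul_mem_mul hz (hPm ha)
    obtain ⟨u, hu⟩ := hunit _ ha'm
    have hπp : Φ (C π) ∈ Ideal.span {Φ p} := by
      have h2 : Φ (C π) = Φ p * (-(Φ (C s) * Φ b) * (u⁻¹ : (Localization.AtPrime q)ˣ)) := by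
        have h3 : Φ (C π) * (u : Localization.AtPrime q) = - (Φ (C s) * Φ b) * Φ p := by
          rw [hu]
          linear_combination hrel
        calc Φ (C π) = Φ (C π) * (u : Localization.AtPrime q)
              * (u⁻¹ : (Localization.AtPrime q)ˣ) := by
              rw [mul_assoc, Units.mul_inv, mul_one]
          _ = _ := by rw [h3]; ring
      rw [h2]
      exact Ideal.mul_mem_right _ _ (Ideal.mem_span_singleton_self _)
    refine ⟨⟨Φ p, ?_⟩⟩
    apply le_antisymm
    · change q' ≤ Ideal.span {Φ p}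
      rw [hq', hmapm]
      refine sup_le (hle1.trans ?_) le_rfl
      rw [Ideal.span_singleton_le_iff_mem]
      exact hπp
    · change Ideal.span {Φ p} ≤ q'
      rw [Ideal.span_singleton_le_iff_mem]
      exact hΦm p hpmem
  · -- the maximal ideal is generated by `π`
    obtain ⟨u, hu⟩ := hunit _ hb
    obtain ⟨v, hv⟩ := hunit _ hsm
    have hpπ : Φ p ∈ Ideal.span {Φ (C π)} := by
      have h2 : Φ p = Φ (C π) * (-(Φ a') * ((v⁻¹ : (Localization.AtPrime q)ˣ) *
          (u⁻¹ : (Localization.AtPrime q)ˣ))) := by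
        have h3 : (v : Localization.AtPrime q) * (u * Φ p) = - (Φ (C π) * Φ a') := by
          rw [hu, hv]
          linear_combination hrel
        calc Φ p = (u⁻¹ : (Localization.AtPrime q)ˣ) * ((v⁻¹ : (Localization.AtPrime q)ˣ) *
              ((v : Localization.AtPrime q) * (u * Φ p))) := by
              rw [Units.inv_mul_cancel_left, Units.inv_mul_cancel_left]
          _ = _ := by rw [h3]; ring
      rw [h2]
      exact Ideal.mul_mem_right _ _ (Ideal.mem_span_singleton_self _)
    refine ⟨⟨Φ (C π), ?_⟩⟩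
    apply le_antisymm
    · change q' ≤ Ideal.span {Φ (C π)}
      rw [hq', hmapm]
      refine sup_le hle1 ?_
      rw [Ideal.span_singleton_le_iff_mem]
      exact hpπ
    · change Ideal.span {Φ (C π)} ≤ q'
      rw [Ideal.span_singleton_le_iff_mem]
      exact hΦm _ hπm

end Pool.Agent.GBC
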