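import Pool.Agent.Lib.GBC.Lam.Ded
import Pool.Agent.Lib.GBC.Q.Deg
import Pool.Agent.Lib.HYP.L.Norm

/-!
Module Lam.Frac of GBC. `S = A[x] / (f)` in `L = K[x] / (f)`: domain, denominators in `A`, finite
dimensional quotients.

PROOFS. `bc (algebraMap A K) f : S → L` is injective (`bc_injective`). `fK f` is irreducible, so `L` is a
field (`AdjoinRoot` of an irreducible polynomial) and `S` is a domain (`isDomain_S`; `S` is nontrivial).
`exists_den`: `l = mk (fK f) P`, `P ∈ K[X]` of degree `< n`; let `a ≠ 0` in `A` be a common denominator of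
the coefficients (`IsLocalization.exist_integer_multiples` or `IsLocalization.integerNormalization`),
`a P = P' over K`.
`fin_quotS`: let `I ≠ ⊥` be an ideal of `S`, `0 ≠ x ∈ I`. `N = norm x ∈ A` is not `0` (`isUnit_iff_norm`
in `L`, `norm_bc`) and is in `I` (Cayley-Hamilton / `Algebra.norm` is a multiple of `x`: the constant
coefficient of the characteristic polynomial; or: `x` divides its norm,
`Algebra.dvd_norm`-like). `S / N S` is a quotient of `(A / (N)) ^ n` (`S` is free over `A` with the basis
`1, θ, …`), which is finite dimensional over `k` (`fin_quotI`), and `S / I` is a quotient of it.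
The `k`-algebra structure of `S` is the one through `A` (`AdjoinRoot` instance for `Algebra k A`).
-/

set_option autoImplicit false

open Polynomial

namespace Pool.Agent.GBC

open Pool.Agent.BSDP Pool.Agent.BSDFF Pool.Agent.HYP

variable {k K : Type} [Field k] [Field K] [Algebra k K] (G : Geo k K) {f : G.A[X]}

private theorem Frac_inj : Function.Injective (algebraMap G.A K) := Subtype.val_injective

theorem isDomain_S (hf : f.Monic) (hi : Irreducible (G.fK f)) : IsDomain (AdjoinRoot f) := by
  have := Fact.mk hi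
  exact Function.Injective.isDomain (bc (algebraMap G.A K) f)
    (bc_injective hf (algebraMap G.A K) (Frac_inj G))

theorem exists_den (l : AdjoinRoot (G.fK f)) : ∃ (a : G.A) (s : AdjoinRoot f), a ≠ 0 ∧
    (a : K) • l = bc (algebraMap G.A K) f s := by
  obtain ⟨P, rfl⟩ := AdjoinRoot.mk_surjective l
  obtain ⟨b, hbM, hb⟩ := IsLocalization.integerNormalization_spec (nonZeroDivisors G.A) P
  refine ⟨b, AdjoinRoot.mk f (IsLocalization.integerNormalization (nonZeroDivisors G.A) P),
    nonZeroDivisors.ne_zero hbM, ?_⟩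
  rw [bc_mk, hb]
  have h1 : b • P = C (b : K) * P := by
    ext n
    rw [coeff_C_mul]
    rfl
  rw [h1, map_mul, Algebra.smul_def]
  rfl

private theorem Frac_dvd_norm {S : Type} [CommRing S] {f : S[X]} (hf : f.Monic)
    (x : AdjoinRoot f) : x ∣ algebraMap S (AdjoinRoot f) (Algebra.norm S x) := by
  rcases subsingleton_or_nontrivial S with hS | hS
  · have : Subsingleton (AdjoinRoot f) := Module.subsingleton S _
    exact ⟨0, Subsingleton.elim _ _⟩
  have := hf.free_adjoinRoot
  have := hf.finite_adjoinRoot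
  set A : AdjoinRoot f →ₗ[S] AdjoinRoot f := Algebra.lmul S (AdjoinRoot f) x with hA
  have h2 := A.aeval_self_charpoly
  have h3 : aeval A A.charpoly = Algebra.lmul S (AdjoinRoot f) (aeval x A.charpoly) :=
    aeval_algHom_apply (Algebra.lmul S (AdjoinRoot f)) x A.charpoly
  rw [h3] at h2
  have h4 : aeval x A.charpoly = 0 := by
    have h5 := congrArg (fun g : AdjoinRoot f →ₗ[S] AdjoinRoot f => g 1) h2
    simpa using h5
  obtain ⟨q, hq⟩ := X_dvd_sub_C (p := A.charpoly)
  have h6 := congrArg (aeval x) hq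
  rw [map_sub, h4, aeval_C, map_mul, aeval_X, zero_sub] at h6
  rw [Algebra.norm_apply, LinearMap.det_eq_sign_charpoly_coeff, map_mul]
  apply Dvd.dvd.mul_left
  exact ⟨-aeval x q, by rw [mul_neg, ← h6, neg_neg]⟩

theorem fin_quotS (hf : f.Monic) (hi : Irreducible (G.fK f)) (I : Ideal (AdjoinRoot f))
    (hI : I ≠ ⊥) : Module.Finite k (AdjoinRoot f ⧸ I) := by
  have hfac := Fact.mk hi
  obtain ⟨x, hxI, hx⟩ := Submodule.exists_mem_ne_zero_of_ne_bot hI
  have hN : Algebra.norm G.A x ≠ 0 := by
    intro h0
    have h1 : bc (algebraMap G.A K) f x ≠ 0 := by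
      intro h
      apply hx
      apply bc_injective hf (algebraMap G.A K) (Frac_inj G)
      rw [h, map_zero]
    have h2 := (isUnit_iff_norm (hf.map (algebraMap G.A K)) _).1 (IsUnit.mk0 _ h1)
    rw [norm_bc hf, h0, map_zero] at h2
    exact not_isUnit_zero h2
  have hNI : algebraMap G.A (AdjoinRoot f) (Algebra.norm G.A x) ∈ I :=
    Ideal.mem_of_dvd I (Frac_dvd_norm hf x) hxI
  have hJ : I.under G.A ≠ ⊥ := by
    intro h
    have h1 : Algebra.norm G.A x ∈ I.under G.A := hNI
    rw [h, Ideal.mem_bot] at h1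
    exact hN h1
  have h1 : Module.Finite k (G.A ⧸ I.under G.A) := G.fin_quotI _ hJ
  have := hf.finite_adjoinRoot
  have h2 : Module.Finite G.A (AdjoinRoot f ⧸ I) := inferInstance
  have h3 : Module.Finite (G.A ⧸ I.under G.A) (AdjoinRoot f ⧸ I) :=
    Module.Finite.of_restrictScalars_finite G.A _ _
  have h4 : IsScalarTower k (G.A ⧸ I.under G.A) (AdjoinRoot f ⧸ I) := by
    refine ⟨fun c y z => ?_⟩
    obtain ⟨a, rfl⟩ := Ideal.Quotient.mk_surjective y
    have e1 : ∀ a : G.A, (Ideal.Quotient.mk (I.under G.A) a) • z = a • z := fun a =>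
      algebraMap_smul (G.A ⧸ I.under G.A) a z
    have e2 : c • Ideal.Quotient.mk (I.under G.A) a = Ideal.Quotient.mk (I.under G.A) (c • a) := rfl
    rw [e2, e1, e1, smul_assoc]
  exact Module.Finite.trans (G.A ⧸ I.under G.A) _

end Pool.Agent.GBC
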