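import Pool.Agent.Lib.GBC.Lam.Frac
import Pool.Agent.Lib.GBC.P.Dense
import Pool.Agent.Lib.GBC.P.Pl
import Pool.Agent.Lib.HYP.F.Dict

/-!
Module Lam.Loc of GBC. From the completion to the localization: if `c₀ ∈ S = A[x] / (f)` is a unit of
`O_w[θ]` times a square over the completion at the finite place `w` then it is a unit of `A_P[θ]` times
the square of an element of `L`, `P = prime w`.

PROOF. `φ = w.1.toCompletion`, `F_w = (fK f).map φ`, `L_w = AdjoinRoot F_w`, `n = 2 g + 1` the degree (any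
degree `≥ 1`), `π = L.pi`, `O = L.O`. `c₀ = e y ^ 2` in `L_w`, `e e' = 1`, `e, e' ∈ O[θ]` (`IntE`), `y` a
unit. The coordinates of `y` in `1, θ, …` can be approximated by elements of `K`: by `L.dense` for every
`N` there is `l ∈ L = AdjoinRoot (fK f)` with `y - l ∈ π ^ N O[θ]` (identify `l` with `bc φ l`). `y⁻¹ ∈
π ^ (- M) O[θ]` for some `M`; take `N = M + 1`: `l = y (1 - π z)` with `z ∈ O[θ]` (products of elements of
`O[θ]` are in `O[θ]`: `f` has coefficients in `O`, `coef_loc`; see `IntE` lemmas in `HYP/F/Dict.lean`).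
`1 - π z` is a unit of `O[θ]`: with `f_O` monic over `O` mapping to `F_w`, its norm is `1` modulo the
maximal ideal (`norm_bc` for the residue map), `isUnit_iff_norm`. So `l` is a unit of `L_w`, hence `l ≠ 0`
and `l` is a unit of the field `L`, and `e₁ := c₀ / l ^ 2 ∈ L` and its inverse are in `O[θ]`
(`e₁ = e (1 - π z) ^ (-2)`). The coordinates of `e₁ ∈ L` are elements `x` of `K` with `φ x ∈ O`, i.e.
`x ∈ w.ring` (`L.mem_iff`; coordinates of `bc φ e₁` are the images of the coordinates: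
`modByMonicHom`, `bc`), so `x = a / s` with `a, s ∈ A`, `s ∉ P` (`mem_ring_iff_frac`). With a common
denominator `s ∉ P`: `s e₁ = s₁`, `s e₁⁻¹ = s₂` with `s₁, s₂ ∈ S`; `s₁ s₂ = s ^ 2`. `l = x₁ / x₂`,
`x₁, x₂ ∈ S` nonzero (`exists_den`). `c₀ = e₁ l ^ 2` gives `c₀ x₂ ^ 2 s = s₁ x₁ ^ 2` in `L`, hence in `S`
(`bc_injective`).
-/

set_option autoImplicit false

open Polynomial

namespace Pool.Agent.GBC

open Pool.Agent.BSDP Pool.Agent.BSDFF Pool.Agent.HYP

section loc

variable {F : Type} [Field F] {L : Loc F}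

private theorem Loc_add {p q : F[X]} (hp : Coef L p) (hq : Coef L q) : Coef L (p + q) := by
  intro i
  rw [coeff_add]
  exact add_mem (hp i) (hq i)

private theorem Loc_sub {p q : F[X]} (hp : Coef L p) (hq : Coef L q) : Coef L (p - q) := by
  intro i
  rw [coeff_sub]
  exact sub_mem (hp i) (hq i)

private theorem Loc_mul {p q : F[X]} (hp : Coef L p) (hq : Coef L q) : Coef L (p * q) := by
  intro i
  rw [coeff_mul]
  exact sum_mem fun x _ => mul_mem (hp _) (hq _)

private theorem Loc_C {a : F} (ha : a ∈ L.O) : Coef L (C a) := by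
  intro i
  rw [coeff_C]
  split_ifs
  · exact ha
  · exact zero_mem _

private theorem Loc_pi : L.pi ∈ L.O := pi_mem L

private theorem Loc_piN (n : ℕ) : Coef L (C (L.pi ^ n)) := Loc_C (pow_mem Loc_pi n)

private theorem Loc_intMul {Q : F[X]} {a b : AdjoinRoot Q} (ha : IntE L a) (hb : IntE L b) :
    IntE L (a * b) := by
  obtain ⟨P, hP, rfl⟩ := ha
  obtain ⟨R, hR, rfl⟩ := hb
  exact ⟨P * R, Loc_mul hP hR, (map_mul _ _ _).symm⟩

private theorem Loc_val (x : F) : ∃ N : ℕ, L.pi ^ N * x ∈ L.O := by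
  by_cases hx : x = 0
  · exact ⟨0, by rw [hx, mul_zero]; exact zero_mem _⟩
  · obtain ⟨n, u, hu, hxu⟩ := L.exists_zpow x hx
    have huO : u ∈ L.O := (ValuationSubring.valuation_le_one_iff L.O u).1 hu.le
    refine ⟨(-n).toNat, ?_⟩
    have h1 : L.pi ^ (-n).toNat * x = L.pi ^ ((-n).toNat + n).toNat * u := by
      rw [hxu, ← mul_assoc, ← zpow_natCast, ← zpow_natCast, ← zpow_add₀ L.pi_ne]
      have : (((-n).toNat + n).toNat : ℤ) = ((-n).toNat : ℤ) + n := by omega
      rw [this]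
    rw [h1]
    exact mul_mem (pow_mem Loc_pi _) huO

/-- denominators -/
private theorem Loc_den (P : F[X]) : ∃ N : ℕ, Coef L (C (L.pi ^ N) * P) := by
  induction P using Polynomial.induction_on' with
  | add p q hp hq =>
    obtain ⟨a, ha⟩ := hp
    obtain ⟨b, hb⟩ := hq
    refine ⟨a + b, ?_⟩
    have h1 : C (L.pi ^ (a + b)) * (p + q) =
        C (L.pi ^ b) * (C (L.pi ^ a) * p) + C (L.pi ^ a) * (C (L.pi ^ b) * q) := by
      rw [pow_add, C_mul]
      ring
    rw [h1]
    exact Loc_add (Loc_mul (Loc_piN b) ha) (Loc_mul (Loc_piN a) hb)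
  | monomial n x =>
    obtain ⟨N, hN⟩ := Loc_val (L := L) x
    refine ⟨N, ?_⟩
    rw [C_mul_monomial]
    intro i
    rw [coeff_monomial]
    split_ifs
    · exact hN
    · exact zero_mem _

/-- the remainder has coefficients in `O` -/
private theorem Loc_rem {Q P : F[X]} (hQ : Q.Monic) (cQ : Coef L Q) (cP : Coef L P) :
    Coef L (P %ₘ Q) := by
  obtain ⟨Q', hQ', -, rfl⟩ := exists_monic_lift L Q cQ hQ
  obtain ⟨P', rfl⟩ := (coef_iff L P).1 cP
  rw [← map_modByMonic _ hQ']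
  exact (coef_iff L _).2 ⟨_, rfl⟩

/-- `1 - π z` is a unit of `O[θ]` -/
private theorem Loc_unit {Q : F[X]} (hQ : Q.Monic) (cQ : Coef L Q) {z : AdjoinRoot Q}
    (hz : IntE L z) : IntE L (1 - AdjoinRoot.of Q L.pi * z) ∧
      ∃ u : AdjoinRoot Q, IntE L u ∧ (1 - AdjoinRoot.of Q L.pi * z) * u = 1 := by
  constructor
  · obtain ⟨P, hP, rfl⟩ := hz
    refine ⟨C 1 - C L.pi * P, Loc_sub (Loc_C (one_mem _)) (Loc_mul (Loc_C Loc_pi) hP), ?_⟩
    rw [map_sub, map_mul, AdjoinRoot.mk_C, AdjoinRoot.mk_C, map_one]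
  · obtain ⟨Q', hQ', -, rfl⟩ := exists_monic_lift L Q cQ hQ
    obtain ⟨P, hP, rfl⟩ := hz
    obtain ⟨Z, rfl⟩ := (coef_iff L P).1 hP
    have h1 : (1 - AdjoinRoot.of (Q'.map (algebraMap L.O F)) L.pi *
        AdjoinRoot.mk (Q'.map (algebraMap L.O F)) (Z.map (algebraMap L.O F))) =
        bc (algebraMap L.O F) Q' (AdjoinRoot.mk Q' (C 1 - C (piO L) * Z)) := by
      rw [bc_mk, Polynomial.map_sub, Polynomial.map_mul, Polynomial.map_C, Polynomial.map_C,
        map_one, map_sub, map_mul, AdjoinRoot.mk_C, AdjoinRoot.mk_C, map_one]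
      rfl
    have h2 : IsUnit (AdjoinRoot.mk Q' (C 1 - C (piO L) * Z)) := by
      rw [isUnit_iff_norm hQ']
      have h3 := norm_bc hQ' (IsLocalRing.residue L.O) (AdjoinRoot.mk Q' (C 1 - C (piO L) * Z))
      have h4 : bc (IsLocalRing.residue L.O) Q' (AdjoinRoot.mk Q' (C 1 - C (piO L) * Z)) = 1 := by
        have h5 : IsLocalRing.residue L.O (piO L) = 0 := by
          rw [IsLocalRing.residue_eq_zero_iff, maximalIdeal_eq]
          exact Ideal.mem_span_singleton_self _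
        rw [bc_mk, Polynomial.map_sub, Polynomial.map_mul, Polynomial.map_C, Polynomial.map_C,
          h5, map_one, C_0, zero_mul, sub_zero, C_1, map_one]
      rw [h4, map_one] at h3
      have h6 : IsUnit (IsLocalRing.residue L.O
          (Algebra.norm L.O (AdjoinRoot.mk Q' (C 1 - C (piO L) * Z)))) := by
        rw [← h3]
        exact isUnit_one
      exact isUnit_of_map_unit _ _ h6
    obtain ⟨u, hu⟩ := h2.exists_right_inv
    refine ⟨bc (algebraMap L.O F) Q' u, ?_, ?_⟩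
    · obtain ⟨U, rfl⟩ := AdjoinRoot.mk_surjective u
      exact ⟨U.map (algebraMap L.O F), (coef_iff L _).2 ⟨_, rfl⟩, bc_mk _ _⟩
    · rw [h1, ← map_mul, hu, map_one]

end loc

variable {k K : Type} [Field k] [Field K] [Algebra k K] (G : Geo k K) {f : G.A[X]}

/-- density for polynomials -/
private theorem Loc_dense {w : Place k K} (L : LocK w) (N : ℕ)
    (Y : (w.ring.valuation.Completion)[X]) :
    ∃ (l : K[X]) (Z : (w.ring.valuation.Completion)[X]), Coef L.toLoc Z ∧
      Y = l.map w.toCompletion + C (L.pi ^ N) * Z := by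
  induction Y using Polynomial.induction_on' with
  | add p q hp hq =>
    obtain ⟨l1, Z1, h1, e1⟩ := hp
    obtain ⟨l2, Z2, h2, e2⟩ := hq
    refine ⟨l1 + l2, Z1 + Z2, Loc_add h1 h2, ?_⟩
    rw [Polynomial.map_add, e1, e2]
    ring
  | monomial n x =>
    have hpN : L.pi ^ N ≠ 0 := pow_ne_zero N L.pi_ne
    obtain ⟨a, ha⟩ := L.dense x (L.pi ^ N) hpN
    refine ⟨monomial n a, monomial n ((x - w.toCompletion a) / L.pi ^ N), ?_, ?_⟩
    · intro i
      rw [coeff_monomial]
      split_ifs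
      · rw [← ValuationSubring.valuation_le_one_iff, map_div₀]
        exact (div_le_one₀ (lt_of_le_of_lt zero_le ha)).2 ha.le
      · exact zero_mem _
    · rw [map_monomial, C_mul_monomial, mul_div_cancel₀ _ hpN, ← map_add]
      congr 1
      ring

private theorem Loc_com (w : G.FP) (E : K[X]) (hE : ∀ i, E.coeff i ∈ w.1.ring) :
    ∃ (s : G.A) (E' : G.A[X]), s ∉ G.prime w ∧ C (s : K) * E = E'.map (algebraMap G.A K) := by
  have hp := (G.prime_max w).isPrime
  have h1 : ∀ n : ℕ, ∃ s : G.A, s ∉ G.prime w ∧ ∀ i < n, ∃ b : G.A, (s : K) * E.coeff i = (b : K) := by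
    intro n
    induction n with
    | zero =>
      exact ⟨1, (Ideal.ne_top_iff_one _).1 hp.ne_top, fun i hi => absurd hi (Nat.not_lt_zero i)⟩
    | succ n ih =>
      obtain ⟨s, hs, h⟩ := ih
      obtain ⟨a, t, ht, hat⟩ := (mem_ring_iff_frac G.A w.2 (E.coeff n)).1 (hE n)
      have ht' : t ∉ G.prime w := ht
      have ht0 : (t : K) ≠ 0 := by
        intro h0
        apply ht'
        have : t = 0 := Subtype.ext h0
        rw [this]
        exact zero_mem _
      refine ⟨s * t, fun h0 => ?_, fun i hi => ?_⟩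
      · rcases hp.mem_or_mem h0 with h2 | h2
        · exact hs h2
        · exact ht' h2
      · rcases Nat.lt_succ_iff_lt_or_eq.1 hi with h2 | h2
        · obtain ⟨b, hb⟩ := h i h2
          refine ⟨b * t, ?_⟩
          have h3 : ((s * t : G.A) : K) = (s : K) * (t : K) := rfl
          have h4 : ((b * t : G.A) : K) = (b : K) * (t : K) := rfl
          rw [h3, h4, ← hb]
          ring
        · subst h2
          refine ⟨s * a, ?_⟩
          have h3 : ((s * t : G.A) : K) = (s : K) * (t : K) := rfl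
          have h4 : ((s * a : G.A) : K) = (s : K) * (a : K) := rfl
          rw [h3, h4, hat, mul_assoc, mul_div_cancel₀ _ ht0]
  obtain ⟨s, hs, h⟩ := h1 (E.natDegree + 1)
  have h2 : C (s : K) * E ∈ Polynomial.lifts (algebraMap G.A K) := by
    rw [Polynomial.lifts_iff_coeff_lifts]
    intro i
    rw [coeff_C_mul]
    rcases Nat.lt_or_ge i (E.natDegree + 1) with hi | hi
    · obtain ⟨b, hb⟩ := h i hi
      exact ⟨b, hb.symm⟩
    · rw [coeff_eq_zero_of_natDegree_lt (by omega), mul_zero]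
      exact ⟨0, map_zero _⟩
  obtain ⟨E', hE'⟩ := (Polynomial.mem_lifts _).1 h2
  exact ⟨s, E', hs, hE'.symm⟩

/-- an element of `L` which is in `O[θ]` over the completion has a denominator prime to `P` -/
private theorem Loc_desc (hf : f.Monic) (w : G.FP) (L : LocK w.1) (e : AdjoinRoot (G.fK f))
    (he : IntE L.toLoc (bc w.1.toCompletion (G.fK f) e)) :
    ∃ (s : G.A) (s₁ : AdjoinRoot f), s ∉ G.prime w ∧
      bc (algebraMap G.A K) f s₁ = AdjoinRoot.of (G.fK f) (s : K) * e := by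
  have hfK : (G.fK f).Monic := hf.map _
  obtain ⟨P, hP, hPe⟩ := he
  obtain ⟨E₀, rfl⟩ := AdjoinRoot.mk_surjective e
  have h1 : ∀ i, (E₀ %ₘ G.fK f).coeff i ∈ w.1.ring := by
    intro i
    rw [← L.mem_iff, ← coeff_map, map_modByMonic _ hfK]
    rw [bc_mk] at hPe
    have h2 := congrArg (AdjoinRoot.modByMonicHom (hfK.map w.1.toCompletion)) hPe
    rw [AdjoinRoot.modByMonicHom_mk, AdjoinRoot.modByMonicHom_mk] at h2
    rw [h2]
    exact Loc_rem (hfK.map _) (coef_loc G.A w.2 L f) hP i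
  obtain ⟨s, E', hs, hE'⟩ := Loc_com G w _ h1
  refine ⟨s, AdjoinRoot.mk f E', hs, ?_⟩
  rw [bc_mk, ← hE', map_mul, AdjoinRoot.mk_C]
  congr 1
  have h3 := AdjoinRoot.mk_leftInverse hfK (AdjoinRoot.mk (G.fK f) E₀)
  rw [AdjoinRoot.modByMonicHom_mk] at h3
  exact h3

theorem local_sq (hf : f.Monic) (hi : Irreducible (G.fK f)) (w : G.FP) (L : LocK w.1)
    (c₀ : AdjoinRoot f)
    (hc : UnitAt L.toLoc (bc w.1.toCompletion (G.fK f) (bc (algebraMap G.A K) f c₀))) :
    ∃ (s : G.A) (x₁ x₂ s₁ s₂ : AdjoinRoot f), s ∉ G.prime w ∧ x₁ ≠ 0 ∧ x₂ ≠ 0 ∧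
      s₁ * s₂ = AdjoinRoot.of f s ^ 2 ∧ c₀ * x₂ ^ 2 * AdjoinRoot.of f s = s₁ * x₁ ^ 2 := by
  classical
  have hfK : (G.fK f).Monic := hf.map _
  have hfact : Fact (Irreducible (G.fK f)) := ⟨hi⟩
  have hinj : Function.Injective (algebraMap G.A K) := Subtype.val_injective
  have hbinj : Function.Injective (bc (algebraMap G.A K) f) := bc_injective hf _ hinj
  have hcoef : Coef L.toLoc ((G.fK f).map w.1.toCompletion) := coef_loc G.A w.2 L f
  have hm2 : ((G.fK f).map w.1.toCompletion).Monic := hfK.map _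
  have hdeg : 1 ≤ (G.fK f).natDegree := hi.natDegree_pos
  have hnt : Nontrivial (AdjoinRoot ((G.fK f).map w.1.toCompletion)) := by
    apply AdjoinRoot.nontrivial
    rw [degree_map, degree_eq_natDegree hfK.ne_zero]
    exact_mod_cast (by omega : (G.fK f).natDegree ≠ 0)
  obtain ⟨e, e', y, he, he', hee, hy, hcy⟩ := hc
  obtain ⟨y', hy'⟩ := hy.exists_right_inv
  obtain ⟨Y, rfl⟩ := AdjoinRoot.mk_surjective y
  obtain ⟨Y', rfl⟩ := AdjoinRoot.mk_surjective y'
  obtain ⟨M, hM⟩ := Loc_den (L := L.toLoc) Y'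
  obtain ⟨l0, Z, hZ, hYl⟩ := Loc_dense L (M + 1) Y
  set l : AdjoinRoot (G.fK f) := AdjoinRoot.mk (G.fK f) l0 with hl
  have hz : IntE L.toLoc (AdjoinRoot.mk ((G.fK f).map w.1.toCompletion) (C (L.pi ^ M) * Y' * Z)) := ⟨_, Loc_mul hM hZ, rfl⟩
  obtain ⟨hu, u', hu', huu⟩ := Loc_unit hm2 hcoef hz
  set u := 1 - AdjoinRoot.of ((G.fK f).map w.1.toCompletion) L.pi * AdjoinRoot.mk ((G.fK f).map w.1.toCompletion) (C (L.pi ^ M) * Y' * Z) with hudef
  have hbl : bc w.1.toCompletion (G.fK f) l = AdjoinRoot.mk ((G.fK f).map w.1.toCompletion) Y * u := by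
    have h1 : bc w.1.toCompletion (G.fK f) l =
        AdjoinRoot.mk ((G.fK f).map w.1.toCompletion) Y - AdjoinRoot.mk ((G.fK f).map w.1.toCompletion) (C (L.pi ^ (M + 1))) * AdjoinRoot.mk ((G.fK f).map w.1.toCompletion) Z := by
      rw [hl, bc_mk, hYl, map_add, map_mul]
      ring
    have h2 : AdjoinRoot.mk ((G.fK f).map w.1.toCompletion) (C (L.pi ^ (M + 1))) =
        AdjoinRoot.of ((G.fK f).map w.1.toCompletion) L.pi * AdjoinRoot.mk ((G.fK f).map w.1.toCompletion) (C (L.pi ^ M)) := by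
      rw [pow_succ, mul_comm, C_mul, map_mul, AdjoinRoot.mk_C]
    rw [h1, h2, hudef, map_mul, map_mul]
    linear_combination (-(AdjoinRoot.of ((G.fK f).map w.1.toCompletion) L.pi * AdjoinRoot.mk ((G.fK f).map w.1.toCompletion) (C (L.pi ^ M)) *
      AdjoinRoot.mk ((G.fK f).map w.1.toCompletion) Z)) * hy' * (-1)
  have hl0 : l ≠ 0 := by
    intro h0
    rw [h0, map_zero] at hbl
    have h1 : (AdjoinRoot.mk ((G.fK f).map w.1.toCompletion) Y * u) * (AdjoinRoot.mk ((G.fK f).map w.1.toCompletion) Y' * u') = 1 := by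
      linear_combination huu * (AdjoinRoot.mk ((G.fK f).map w.1.toCompletion) Y * AdjoinRoot.mk ((G.fK f).map w.1.toCompletion) Y') + hy'
    rw [← hbl, zero_mul] at h1
    exact zero_ne_one h1
  set c := bc (algebraMap G.A K) f c₀ with hcdef
  have hc0 : c ≠ 0 := by
    intro h0
    rw [h0, map_zero] at hcy
    have h1 : (e * AdjoinRoot.mk ((G.fK f).map w.1.toCompletion) Y ^ 2) * (e' * AdjoinRoot.mk ((G.fK f).map w.1.toCompletion) Y' ^ 2) = 1 := by
      linear_combination hee * (AdjoinRoot.mk ((G.fK f).map w.1.toCompletion) Y * AdjoinRoot.mk ((G.fK f).map w.1.toCompletion) Y') ^ 2 +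
        hy' * (AdjoinRoot.mk ((G.fK f).map w.1.toCompletion) Y * AdjoinRoot.mk ((G.fK f).map w.1.toCompletion) Y' + 1)
    rw [← hcy, zero_mul] at h1
    exact zero_ne_one h1
  have hbli : bc w.1.toCompletion (G.fK f) l⁻¹ = AdjoinRoot.mk ((G.fK f).map w.1.toCompletion) Y' * u' := by
    have h1 : bc w.1.toCompletion (G.fK f) l * bc w.1.toCompletion (G.fK f) l⁻¹ = 1 := by
      rw [← map_mul, mul_inv_cancel₀ hl0, map_one]
    rw [hbl] at h1
    linear_combination (AdjoinRoot.mk ((G.fK f).map w.1.toCompletion) Y' * u') * h1 -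
      (bc w.1.toCompletion (G.fK f) l⁻¹) * (u * u') * hy' - (bc w.1.toCompletion (G.fK f) l⁻¹) * huu
  have he1 : IntE L.toLoc (bc w.1.toCompletion (G.fK f) (c * l⁻¹ ^ 2)) := by
    have h1 : bc w.1.toCompletion (G.fK f) (c * l⁻¹ ^ 2) = e * (u' * u') := by
      rw [map_mul, map_pow, hbli, hcy]
      linear_combination e * (u' * u') *
        (AdjoinRoot.mk ((G.fK f).map w.1.toCompletion) Y * AdjoinRoot.mk ((G.fK f).map w.1.toCompletion) Y' + 1) * hy'
    rw [h1]
    exact Loc_intMul he (Loc_intMul hu' hu')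
  have he2 : IntE L.toLoc (bc w.1.toCompletion (G.fK f) (c⁻¹ * l ^ 2)) := by
    have h1 : bc w.1.toCompletion (G.fK f) (c⁻¹ * l ^ 2) = e' * (u * u) := by
      have h2 : bc w.1.toCompletion (G.fK f) c⁻¹ * (e * AdjoinRoot.mk ((G.fK f).map w.1.toCompletion) Y ^ 2) = 1 := by
        rw [← hcy, ← map_mul, inv_mul_cancel₀ hc0, map_one]
      rw [map_mul, map_pow, hbl]
      linear_combination e' * u * u * h2 - (bc w.1.toCompletion (G.fK f) c⁻¹) *
        (AdjoinRoot.mk ((G.fK f).map w.1.toCompletion) Y * u) ^ 2 * hee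
    rw [h1]
    exact Loc_intMul he' (Loc_intMul hu hu)
  obtain ⟨sa, ta, hsa, hta⟩ := Loc_desc G hf w L _ he1
  obtain ⟨sb, tb, hsb, htb⟩ := Loc_desc G hf w L _ he2
  obtain ⟨a, x₁, ha0, hx₁⟩ := exists_den G l
  have hp := (G.prime_max w).isPrime
  have hof : ∀ x : G.A, bc (algebraMap G.A K) f (AdjoinRoot.of f x) =
      AdjoinRoot.of (G.fK f) (x : K) := by
    intro x
    rw [← AdjoinRoot.mk_C, bc_mk, Polynomial.map_C, AdjoinRoot.mk_C]
    rfl
  have haK : (a : K) ≠ 0 := fun h => ha0 (Subtype.ext h)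
  have hofa : AdjoinRoot.of (G.fK f) (a : K) ≠ 0 := by
    rw [Ne, map_eq_zero]
    exact haK
  have hx₁' : bc (algebraMap G.A K) f x₁ = AdjoinRoot.of (G.fK f) (a : K) * l := by
    rw [← hx₁, Algebra.smul_def]
    rfl
  refine ⟨sa * sb, x₁, AdjoinRoot.of f a, AdjoinRoot.of f sb * ta, AdjoinRoot.of f sa * tb, ?_, ?_,
    ?_, ?_, ?_⟩
  · intro h0
    rcases hp.mem_or_mem h0 with h2 | h2
    · exact hsa h2
    · exact hsb h2
  · intro h0
    rw [h0, map_zero] at hx₁'
    exact mul_ne_zero hofa hl0 hx₁'.symm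
  · intro h0
    apply hofa
    rw [← hof, h0, map_zero]
  · apply hbinj
    simp only [map_pow, map_mul, hof, hta, htb]
    have h1 : c * l⁻¹ ^ 2 * (c⁻¹ * l ^ 2) = 1 := by
      field_simp
    linear_combination (AdjoinRoot.of (G.fK f) (sa : K) * AdjoinRoot.of (G.fK f) (sb : K)) ^ 2 * h1
  · apply hbinj
    simp only [map_pow, map_mul, hof, hta, hx₁', ← hcdef]
    have h1 : l⁻¹ * l = 1 := inv_mul_cancel₀ hl0
    linear_combination (-(AdjoinRoot.of (G.fK f) (sa : K) * AdjoinRoot.of (G.fK f) (sb : K)) *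
      c * AdjoinRoot.of (G.fK f) (a : K) ^ 2 * (l⁻¹ * l + 1)) * h1

end Pool.Agent.GBC
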