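import Pool.Agent.Lib.GBC.Lam.Val
import Pool.Agent.Lib.GBC.Lam.ChiS
import Pool.Agent.Lib.GBC.T.Kap

/-!
Module Lam.Main of GBC. The lattice `Λ` of a class `c ∈ U (f)` which is a unit at infinity.

PROOF. Write `ι = bc (algebraMap A K) f : S → L`. `S` is a Dedekind domain with finite dimensional
quotients (`isDomain_S`, `isDedekind_adjoinRoot`, `fin_quotS`, `irreducible_fK`). Let `0 ≠ a ∈ A` with
`a ^ 2 c = ι c₀`, `c₀ ∈ S` (`exists_den`: `a c = ι s`, `c₀ = a s`). `c₀` is a unit up to squares at all finite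
places as `c` is (`UnitAt` of `c` times the square of the unit `a`), so `Q ^ 2 = (c₀)`
(`exists_sq_ideal`). For an ideal `I` of `S` let `ι I ⊆ L` be the image, `deg I = dim_k S / I`; for
`I ≤ S`, `Rel (ι I) (SA G f) ≃ S / I`.
Let `M = BL z`. For `0 ≠ x ∈ S` let `x M` be the image of `M` under the multiplication by `ι x`, a
`k`-linear automorphism `E_x` of `L` (`L` is a field). (1) `chi (SA, x M) = chi (SA, M) + deg (x)`:
`chi (x SA, x M) = chi (SA, M)` (`chi_map`), `x SA = ι (x) ≤ SA` with `dim = deg (x)` (`chi_left`). The same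
for any `M` with `ChiFin (SA, M)`, e.g. for `x M` itself.
(2) `c M = M` (`c, e' ∈ BL 0`, `c e' = 1`, `BL_mul`). So `c₀ M = a ^ 2 c M = a ^ 2 M`, and by (1) for `c₀`, and
for `a` applied twice: `chi (SA, M) + deg (c₀) = chi (SA, M) + 2 deg (a)`. By `finrank_mul`
`deg (c₀) = 2 deg Q`. So `deg Q = deg (a)`. (3) `chi (ι Q, a M) = chi (SA, a M) - deg Q = chi (SA, M)`.
`Λ := {l | a c l ∈ ι Q}`. For `l, l' ∈ Λ`: `(a c l) (a c l') ∈ ι (Q ^ 2) = ι c₀ S = a ^ 2 c ι S`, so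
`c l l' ∈ SA` (cancel `a ^ 2 c ≠ 0`). Multiplication by `a c` maps `Λ ⊓ M` onto `ι Q ⊓ a c M = ι Q ⊓ a M`,
of finite dimension `≥ chi (ι Q, a M) = chi (SA, M)` (`chi_le`), and `chi_SA` with `z = y + 2 g m` gives
`chi (SA, M) = (2 g + 1) (chi A (M 0) + d y)`.
-/

set_option autoImplicit false

open Polynomial

namespace Pool.Agent.GBC

open Pool.Agent.BSDP Pool.Agent.BSDFF Pool.Agent.HYP

section core

variable {k L S : Type} [Field k] [CommRing L] [IsDomain L] [Algebra k L] [CommRing S]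
  [IsDedekindDomain S] [Algebra k S]

/-- Multiplication by a unit. -/
private noncomputable def LamMain_lmMul (u : Lˣ) : L ≃ₗ[k] L where
  toFun l := (u : L) * l
  invFun l := ((u⁻¹ : Lˣ) : L) * l
  map_add' x y := mul_add _ _ _
  map_smul' c x := by
    rw [mul_smul_comm]
    rfl
  left_inv l := by
    change ((u⁻¹ : Lˣ) : L) * ((u : L) * l) = l
    rw [← mul_assoc, Units.inv_mul, one_mul]
  right_inv l := by
    change (u : L) * (((u⁻¹ : Lˣ) : L) * l) = l
    rw [← mul_assoc, Units.mul_inv, one_mul]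

private theorem LamMain_lm_mem_map (u : Lˣ) (P : Submodule k L) (x : L) :
    x ∈ P.map ((LamMain_lmMul (k := k) u : L ≃ₗ[k] L) : L →ₗ[k] L) ↔ ∃ y ∈ P, (u : L) * y = x := by
  simp only [Submodule.mem_map]
  rfl

/-- The image of an ideal. -/
private def LamMain_lmI (ι : S →ₐ[k] L) (I : Ideal S) : Submodule k L :=
  (I.restrictScalars k).map ι.toLinearMap

private theorem LamMain_lm_mem_I (ι : S →ₐ[k] L) (I : Ideal S) (x : L) :
    x ∈ LamMain_lmI ι I ↔ ∃ s ∈ I, ι s = x := by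
  unfold LamMain_lmI
  simp only [Submodule.mem_map]
  rfl

private theorem LamMain_lm_rel (ι : S →ₐ[k] L) (hι : Function.Injective ι) (I : Ideal S)
    (hfin : Module.Finite k (S ⧸ I)) :
    Module.Finite k (Rel (LamMain_lmI ι I) (LinearMap.range ι.toLinearMap)) ∧
      Module.finrank k (Rel (LamMain_lmI ι I) (LinearMap.range ι.toLinearMap)) =
        Module.finrank k (S ⧸ I) := by
  let φ : S →ₗ[k] Rel (LamMain_lmI ι I) (LinearMap.range ι.toLinearMap) :=
    (Submodule.mkQ _).comp ι.toLinearMap.rangeRestrict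
  have hs : Function.Surjective φ := by
    intro x
    obtain ⟨⟨_, s, rfl⟩, rfl⟩ := Submodule.Quotient.mk_surjective _ x
    exact ⟨s, rfl⟩
  have hk : LinearMap.ker φ = I.restrictScalars k := by
    ext s
    rw [LinearMap.mem_ker]
    change Submodule.Quotient.mk (ι.toLinearMap.rangeRestrict s) = 0 ↔ s ∈ I
    rw [Submodule.Quotient.mk_eq_zero]
    change ι s ∈ LamMain_lmI ι I ↔ s ∈ I
    rw [LamMain_lm_mem_I]
    constructor
    · rintro ⟨s', hs', h⟩
      rw [← hι h]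
      exact hs'
    · intro h
      exact ⟨s, h, rfl⟩
  have e : (S ⧸ I) ≃ₗ[k] Rel (LamMain_lmI ι I) (LinearMap.range ι.toLinearMap) :=
    (Submodule.Quotient.restrictScalarsEquiv k I).symm.trans
      ((Submodule.quotEquivOfEq _ _ hk.symm).trans (φ.quotKerEquivOfSurjective hs))
  exact ⟨Module.Finite.equiv e, e.finrank_eq.symm⟩

private theorem LamMain_lm_img (ι : S →ₐ[k] L) (hι : Function.Injective ι) (I : Ideal S)
    (hfin : Module.Finite k (S ⧸ I)) (M : Submodule k L) :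
    (ChiFin (LamMain_lmI ι I) M ↔ ChiFin (LinearMap.range ι.toLinearMap) M) ∧
    (ChiFin (LinearMap.range ι.toLinearMap) M → chi (LinearMap.range ι.toLinearMap) M =
      chi (LamMain_lmI ι I) M + Module.finrank k (S ⧸ I)) := by
  obtain ⟨h1, h2⟩ := LamMain_lm_rel ι hι I hfin
  have hle : LamMain_lmI ι I ≤ LinearMap.range ι.toLinearMap := by
    intro x hx
    obtain ⟨s, -, rfl⟩ := (LamMain_lm_mem_I ι I x).1 hx
    exact ⟨s, rfl⟩
  obtain ⟨h3, h4⟩ := chi_left (M := M) hle h1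
  refine ⟨h3, fun h => ?_⟩
  rw [h4 (h3.2 h), h2]

private theorem LamMain_lm_mul (ι : S →ₐ[k] L) (hι : Function.Injective ι)
    (hfin : ∀ I : Ideal S, I ≠ ⊥ → Module.Finite k (S ⧸ I)) (x : S) (hx : x ≠ 0) (u : Lˣ)
    (hu : (u : L) = ι x) (M : Submodule k L) (hM : ChiFin (LinearMap.range ι.toLinearMap) M) :
    ChiFin (LinearMap.range ι.toLinearMap) (M.map ((LamMain_lmMul (k := k) u : L ≃ₗ[k] L) : L →ₗ[k] L)) ∧
    chi (LinearMap.range ι.toLinearMap) (M.map ((LamMain_lmMul (k := k) u : L ≃ₗ[k] L) : L →ₗ[k] L)) =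
      chi (LinearMap.range ι.toLinearMap) M + Module.finrank k (S ⧸ Ideal.span {x}) := by
  have hne : Ideal.span {x} ≠ ⊥ := by
    rw [Ne, Ideal.span_singleton_eq_bot]
    exact hx
  have h0 : (LinearMap.range ι.toLinearMap).map ((LamMain_lmMul (k := k) u : L ≃ₗ[k] L) : L →ₗ[k] L) =
      LamMain_lmI ι (Ideal.span {x}) := by
    ext l
    rw [LamMain_lm_mem_map, LamMain_lm_mem_I]
    constructor
    · rintro ⟨_, ⟨s, rfl⟩, rfl⟩
      refine ⟨x * s, Ideal.mul_mem_right _ _ (Ideal.mem_span_singleton_self x), ?_⟩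
      rw [map_mul, hu]
      rfl
    · rintro ⟨s, hs, rfl⟩
      obtain ⟨r, rfl⟩ := Ideal.mem_span_singleton'.1 hs
      refine ⟨ι r, ⟨r, rfl⟩, ?_⟩
      rw [map_mul, hu, mul_comm]
  obtain ⟨h1, h2⟩ := chi_map (LamMain_lmMul (k := k) u) (LinearMap.range ι.toLinearMap) M
  rw [h0] at h1 h2
  obtain ⟨h3, h4⟩ := LamMain_lm_img ι hι (Ideal.span {x}) (hfin _ hne)
    (M.map ((LamMain_lmMul (k := k) u : L ≃ₗ[k] L) : L →ₗ[k] L))
  have h5 := h3.1 (h1.2 hM)
  refine ⟨h5, ?_⟩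
  rw [h4 h5, h2]

private theorem LamMain_lm_core (ι : S →ₐ[k] L) (hι : Function.Injective ι)
    (hfin : ∀ I : Ideal S, I ≠ ⊥ → Module.Finite k (S ⧸ I)) (a : S) (ha : a ≠ 0) (c : Lˣ)
    (ua : Lˣ) (hua : (ua : L) = ι a) (c₀ : S) (hc₀ : ι c₀ = ι a ^ 2 * c) (h0 : c₀ ≠ 0)
    (Q : Ideal S) (hQ : Q ^ 2 = Ideal.span {c₀}) :
    ∃ Λ : Submodule k L, (∀ l ∈ Λ, ∀ l' ∈ Λ, ∃ s : S, ι s = c * l * l') ∧
      ∀ M : Submodule k L, (∀ l, l ∈ M ↔ (c : L) * l ∈ M) →
        ChiFin (LinearMap.range ι.toLinearMap) M →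
        Module.Finite k (Λ ⊓ M : Submodule k L) ∧
          chi (LinearMap.range ι.toLinearMap) M ≤ Module.finrank k (Λ ⊓ M : Submodule k L) := by
  have hc0ne : Ideal.span {c₀} ≠ ⊥ := by
    rw [Ne, Ideal.span_singleton_eq_bot]
    exact h0
  have hane : Ideal.span {a} ≠ ⊥ := by
    rw [Ne, Ideal.span_singleton_eq_bot]
    exact ha
  have hQne : Q ≠ ⊥ := by
    rintro rfl
    apply hc0ne
    rw [← hQ, pow_two, Ideal.bot_mul]
  have hua0 : (ua : L) ≠ 0 := ua.ne_zero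
  have hc0' : (c : L) ≠ 0 := c.ne_zero
  let u0 : Lˣ := ua * ua * c
  have hu0 : (u0 : L) = ι c₀ := by
    rw [hc₀, ← hua]
    change (ua : L) * ua * c = _
    ring
  have key : ∀ M : Submodule k L, (∀ l, l ∈ M ↔ (c : L) * l ∈ M) →
      ChiFin (LinearMap.range ι.toLinearMap) M →
      Module.finrank k (S ⧸ Q) = Module.finrank k (S ⧸ Ideal.span {a}) := by
    intro M hcM hM
    obtain ⟨-, h1⟩ := LamMain_lm_mul ι hι hfin c₀ h0 u0 hu0 M hM
    obtain ⟨h2, h3⟩ := LamMain_lm_mul ι hι hfin a ha ua hua M hM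
    obtain ⟨-, h4⟩ := LamMain_lm_mul ι hι hfin a ha ua hua _ h2
    have h5 : M.map ((LamMain_lmMul (k := k) u0 : L ≃ₗ[k] L) : L →ₗ[k] L) =
        (M.map ((LamMain_lmMul (k := k) ua : L ≃ₗ[k] L) : L →ₗ[k] L)).map
          ((LamMain_lmMul (k := k) ua : L ≃ₗ[k] L) : L →ₗ[k] L) := by
      ext l
      rw [LamMain_lm_mem_map, LamMain_lm_mem_map]
      constructor
      · rintro ⟨y, hy, rfl⟩
        refine ⟨ua * (c * y), (LamMain_lm_mem_map _ _ _).2 ⟨c * y, (hcM y).1 hy, rfl⟩, ?_⟩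
        change _ = (ua : L) * ua * c * y
        ring
      · rintro ⟨z, hz, rfl⟩
        obtain ⟨y, hy, rfl⟩ := (LamMain_lm_mem_map _ _ _).1 hz
        refine ⟨((c⁻¹ : Lˣ) : L) * y, (hcM _).2 ?_, ?_⟩
        · rw [← mul_assoc, Units.mul_inv, one_mul]
          exact hy
        · change (ua : L) * ua * c * (((c⁻¹ : Lˣ) : L) * y) = _
          calc (ua : L) * ua * c * (((c⁻¹ : Lˣ) : L) * y)
              = (ua : L) * ua * y * ((c : L) * ((c⁻¹ : Lˣ) : L)) := by ring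
            _ = ua * (ua * y) := by rw [Units.mul_inv]; ring
    rw [h5, h4, h3] at h1
    have h6 : Module.finrank k (S ⧸ Q ^ 2) = Module.finrank k (S ⧸ Q) + Module.finrank k (S ⧸ Q) := by
      rw [pow_two]
      exact Pool.Agent.GBC.finrank_mul hfin hQne hQne
    rw [hQ] at h6
    omega
  refine ⟨(LamMain_lmI ι Q).comap ((LamMain_lmMul (k := k) (ua * c) : L ≃ₗ[k] L) : L →ₗ[k] L), ?_, ?_⟩
  · intro l hl l' hl'
    have h1 : (ua * c : L) * l ∈ LamMain_lmI ι Q := hl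
    have h2 : (ua * c : L) * l' ∈ LamMain_lmI ι Q := hl'
    obtain ⟨q, hq, hql⟩ := (LamMain_lm_mem_I ι Q _).1 h1
    obtain ⟨q', hq', hql'⟩ := (LamMain_lm_mem_I ι Q _).1 h2
    have h3 : q * q' ∈ Ideal.span {c₀} := by
      rw [← hQ, pow_two]
      exact Ideal.mul_mem_mul hq hq'
    obtain ⟨r, hr⟩ := Ideal.mem_span_singleton'.1 h3
    refine ⟨r, ?_⟩
    have h4 : ι r * (ι a ^ 2 * c) = ((ua * c : L) * l) * ((ua * c : L) * l') := by
      rw [← hc₀, ← map_mul, hr, map_mul, hql, hql']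
    rw [← hua] at h4
    have h5 : ((ua : L) ^ 2 * c) * ι r = ((ua : L) ^ 2 * c) * (c * l * l') := by
      linear_combination h4
    exact mul_left_cancel₀ (mul_ne_zero (pow_ne_zero 2 hua0) hc0') h5
  · intro M hcM hM
    have hk := key M hcM hM
    obtain ⟨h2, h3⟩ := LamMain_lm_mul ι hι hfin a ha ua hua M hM
    obtain ⟨h4, h5⟩ := LamMain_lm_img ι hι Q (hfin Q hQne)
      (M.map ((LamMain_lmMul (k := k) ua : L ≃ₗ[k] L) : L →ₗ[k] L))
    have h6 := h5 h2
    have h7 := chi_le (LamMain_lmI ι Q) (M.map ((LamMain_lmMul (k := k) ua : L ≃ₗ[k] L) : L →ₗ[k] L))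
    have h8 := (h4.2 h2).inf
    have hmap : ((LamMain_lmI ι Q).comap ((LamMain_lmMul (k := k) (ua * c) : L ≃ₗ[k] L) : L →ₗ[k] L) ⊓ M).map
        ((LamMain_lmMul (k := k) (ua * c) : L ≃ₗ[k] L) : L →ₗ[k] L) =
        LamMain_lmI ι Q ⊓ M.map ((LamMain_lmMul (k := k) ua : L ≃ₗ[k] L) : L →ₗ[k] L) := by
      ext x
      rw [LamMain_lm_mem_map, Submodule.mem_inf, LamMain_lm_mem_map]
      constructor
      · rintro ⟨y, ⟨hy1, hy2⟩, rfl⟩
        refine ⟨hy1, c * y, (hcM y).1 hy2, ?_⟩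
        change _ = (ua : L) * c * y
        ring
      · rintro ⟨hx, y, hy, rfl⟩
        have e : ((ua * c : Lˣ) : L) * (((c⁻¹ : Lˣ) : L) * y) = (ua : L) * y := by
          change (ua : L) * c * (((c⁻¹ : Lˣ) : L) * y) = _
          calc (ua : L) * c * (((c⁻¹ : Lˣ) : L) * y)
              = (ua : L) * y * ((c : L) * ((c⁻¹ : Lˣ) : L)) := by ring
            _ = ua * y := by rw [Units.mul_inv]; ring
        refine ⟨((c⁻¹ : Lˣ) : L) * y, ⟨?_, (hcM _).2 ?_⟩, e⟩
        · change ((ua * c : Lˣ) : L) * (((c⁻¹ : Lˣ) : L) * y) ∈ LamMain_lmI ι Q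
          rw [e]
          exact hx
        · rw [← mul_assoc, Units.mul_inv, one_mul]
          exact hy
    have e1 : ((LamMain_lmI ι Q).comap ((LamMain_lmMul (k := k) (ua * c) : L ≃ₗ[k] L) : L →ₗ[k] L) ⊓ M :
        Submodule k L) ≃ₗ[k] (LamMain_lmI ι Q ⊓ M.map ((LamMain_lmMul (k := k) ua : L ≃ₗ[k] L) : L →ₗ[k] L) :
        Submodule k L) :=
      ((LamMain_lmMul (k := k) (ua * c)).submoduleMap _).trans (LinearEquiv.ofEq _ _ hmap)
    refine ⟨Module.Finite.equiv e1.symm, ?_⟩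
    rw [e1.finrank_eq]
    omega

end core

variable {k K : Type} [Field k] [Field K] [Algebra k K] {G : Geo k K} {g m : ℕ} {D : Data G g}
  {f : G.A[X]}

theorem lattice [Finite k] (h2 : (2 : k) ≠ 0) (hf : Fam D m f) (hm : (G.fK f).Monic)
    (c e' : AdjoinRoot (G.fK f)) (hc : c ∈ BL G m hm 0) (he : e' ∈ BL G m hm 0)
    (h : c * e' = 1) (hu : InU G c) :
    ∃ Λ : Submodule k (AdjoinRoot (G.fK f)), (∀ l ∈ Λ, ∀ l' ∈ Λ, c * l * l' ∈ SA G f) ∧
      (∀ z : ℤ, Module.Finite k (Λ ⊓ BL G m hm z : Submodule k (AdjoinRoot (G.fK f)))) ∧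
      ∀ y : ℤ, (2 * g + 1) * (chi G.A.toSubmodule (G.M 0) + G.d * y) ≤
        (Module.finrank k (Λ ⊓ BL G m hm (y + 2 * g * m) :
          Submodule k (AdjoinRoot (G.fK f))) : ℤ) := by
  have hf0 : Fam₀ D m f := hf.toFam₀
  have hi : Irreducible (G.fK f) := irreducible_fK hf0
  have hfact : Fact (Irreducible (G.fK f)) := ⟨hi⟩
  have hdomS : IsDomain (AdjoinRoot f) := isDomain_S G hf.monic hi
  have hded : IsDedekindDomain (AdjoinRoot f) := isDedekind_adjoinRoot hf.monic hdomS hf.reg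
  have hinj : Function.Injective (bc (algebraMap G.A K) f) :=
    bc_injective hf.monic (algebraMap G.A K) Subtype.val_injective
  have hof : ∀ a : G.A, bc (algebraMap G.A K) f (AdjoinRoot.of f a) =
      AdjoinRoot.of (G.fK f) (a : K) := fun a => AdjoinRoot.map_of _ _ _ _ _
  let ι : AdjoinRoot f →ₐ[k] AdjoinRoot (G.fK f) :=
    { bc (algebraMap G.A K) f with
      commutes' := fun x => by
        change bc (algebraMap G.A K) f (AdjoinRoot.of f (algebraMap k G.A x)) =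
          algebraMap k (AdjoinRoot (G.fK f)) x
        rw [hof]
        rfl }
  have hι : ∀ s, ι s = bc (algebraMap G.A K) f s := fun _ => rfl
  obtain ⟨a, s, ha, hs⟩ := exists_den G c
  have ha' : (a : K) ≠ 0 := fun h0 => ha (Subtype.ext h0)
  have hsm : (a : K) • c = AdjoinRoot.of (G.fK f) (a : K) * c := by
    rw [Algebra.smul_def]
    rfl
  have haL : AdjoinRoot.of (G.fK f) (a : K) ≠ 0 := by
    rw [Ne, ← map_zero (AdjoinRoot.of (G.fK f))]
    exact fun h0 => ha' ((AdjoinRoot.of (G.fK f)).injective h0)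
  have hua : IsUnit (AdjoinRoot.of (G.fK f) (a : K)) := (IsUnit.mk0 _ ha').map _
  obtain ⟨ua, hua⟩ := hua
  have hcu : IsUnit c := IsUnit.of_mul_eq_one e' h
  obtain ⟨cu, hcu⟩ := hcu
  have hc₀ : ι (AdjoinRoot.of f a * s) = ι (AdjoinRoot.of f a) ^ 2 * c := by
    rw [map_mul, hι, hι, hof, ← hs, hsm]
    ring
  have hanz : AdjoinRoot.of f a ≠ 0 := by
    intro h0
    apply haL
    rw [← hof, h0, map_zero]
  have hcne : c ≠ 0 := by
    rintro rfl
    rw [zero_mul] at h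
    exact zero_ne_one h
  have h0 : AdjoinRoot.of f a * s ≠ 0 := by
    intro h0
    rw [h0, map_zero] at hc₀
    exact mul_ne_zero (pow_ne_zero 2 (by rw [hι, hof]; exact haL)) hcne hc₀.symm
  obtain ⟨Q, hQ⟩ := exists_sq_ideal G h2 hf.monic hi hf.reg (AdjoinRoot.of f a * s) h0 (by
    intro w L
    obtain ⟨e, e'', y, he1, he2, hee, hy, hcy⟩ := hu.2 w L
    have hb : bc w.1.toCompletion (G.fK f) (AdjoinRoot.of (G.fK f) (a : K)) =
        AdjoinRoot.of _ (w.1.toCompletion (a : K)) := AdjoinRoot.map_of _ _ _ _ _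
    refine ⟨e, e'', bc w.1.toCompletion (G.fK f) (AdjoinRoot.of (G.fK f) (a : K)) * y, he1, he2,
      hee, IsUnit.mul ?_ hy, ?_⟩
    · rw [← hua]
      exact ua.isUnit.map _
    · have h3 : bc (algebraMap G.A K) f (AdjoinRoot.of f a * s) =
          AdjoinRoot.of (G.fK f) (a : K) ^ 2 * c := by
        rw [← hof]
        exact hc₀
      rw [h3, map_mul, map_pow, hcy]
      ring)
  obtain ⟨Λ, h3, h4⟩ := LamMain_lm_core ι hinj (fin_quotS G hf.monic hi) (AdjoinRoot.of f a) hanz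
    cu ua (by rw [hua, hι, hof]) (AdjoinRoot.of f a * s) (by rw [hc₀, hcu]) h0 Q hQ
  have hSA : SA G f = LinearMap.range ι.toLinearMap := by
    ext l
    rfl
  have hcM : ∀ z : ℤ, ∀ l, l ∈ BL G m hm z ↔ (cu : AdjoinRoot (G.fK f)) * l ∈ BL G m hm z := by
    intro z l
    rw [hcu]
    constructor
    · intro hl
      have h5 := BL_mul hf0 hc hl
      rwa [zero_add] at h5
    · intro hl
      have h5 := BL_mul hf0 he hl
      rw [zero_add, ← mul_assoc, mul_comm e' c, h, one_mul] at h5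
      exact h5
  have hchi : ∀ z : ℤ, ChiFin (LinearMap.range ι.toLinearMap) (BL G m hm z) ∧
      chi (LinearMap.range ι.toLinearMap) (BL G m hm z) =
        (2 * g + 1) * chi G.A.toSubmodule (G.M 0) +
        G.d * ((2 * g + 1) * z - 2 * m * g * (2 * g + 1)) := by
    intro z
    rw [← hSA]
    exact chi_SA hf0 hm z
  refine ⟨Λ, ?_, fun z => (h4 _ (hcM z) (hchi z).1).1, fun y => ?_⟩
  · intro l hl l' hl'
    obtain ⟨s', hs'⟩ := h3 l hl l' hl'
    rw [hcu] at hs'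
    exact ⟨s', hs'⟩
  · have h5 := (h4 _ (hcM (y + 2 * g * m)) (hchi _).1).2
    rw [(hchi _).2] at h5
    refine le_trans (le_of_eq ?_) h5
    ring

end Pool.Agent.GBC
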