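import Pool.Agent.Lib.GBC.Q.Chi

/-!
Module Lam.Pi of GBC. The Euler characteristic of products.

PROOF. For `P M : ι → Submodule k V`, `ι` finite, in the space `ι → V`:
`pi P ⊓ pi M = pi (P i ⊓ M i)` (`Submodule.pi` and `Submodule.mem_pi`), of dimension
`∑ dim (P i ⊓ M i)`; `pi P ⊔ pi M = pi (P i ⊔ M i)`; the quotient of `ι → V` by `pi (Q i)` is
`∏ V / Q i` (`Submodule.quotientPi`), of dimension `∑ dim V / Q i` (`Module.finrank_pi_fintype`).
-/

set_option autoImplicit false

namespace Pool.Agent.GBC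

variable {k V : Type} [Field k] [AddCommGroup V] [Module k V] {ι : Type} [Fintype ι]

/-- the intersection of products -/
private def Pi_inf (P M : ι → Submodule k V) :
    (Submodule.pi Set.univ P ⊓ Submodule.pi Set.univ M : Submodule k (ι → V)) ≃ₗ[k]
      ∀ i, (P i ⊓ M i : Submodule k V) where
  toFun x i := ⟨x.1 i, x.2.1 i (Set.mem_univ i), x.2.2 i (Set.mem_univ i)⟩
  invFun y := ⟨fun i => (y i).1, fun i _ => (y i).2.1, fun i _ => (y i).2.2⟩
  map_add' _ _ := rfl
  map_smul' _ _ := rfl
  left_inv _ := rfl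
  right_inv _ := rfl

omit [Fintype ι] in
private theorem Pi_sup (P M : ι → Submodule k V) :
    Submodule.pi Set.univ P ⊔ Submodule.pi Set.univ M = Submodule.pi Set.univ fun i => P i ⊔ M i := by
  apply le_antisymm
  · refine sup_le ?_ ?_
    · intro x hx i hi
      exact Submodule.mem_sup_left (hx i hi)
    · intro x hx i hi
      exact Submodule.mem_sup_right (hx i hi)
  · intro x hx
    have h1 : ∀ i, ∃ p ∈ P i, ∃ m ∈ M i, p + m = x i := fun i =>
      Submodule.mem_sup.1 (hx i (Set.mem_univ i))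
    choose p hp m hm hpm using h1
    have h2 : x = p + m := by
      funext i
      exact (hpm i).symm
    rw [h2]
    exact Submodule.add_mem _ (Submodule.mem_sup_left fun i _ => hp i)
      (Submodule.mem_sup_right fun i _ => hm i)

theorem chi_pi (P M : ι → Submodule k V) (h : ∀ i, ChiFin (P i) (M i)) :
    ChiFin (Submodule.pi Set.univ P) (Submodule.pi Set.univ M) ∧
      chi (Submodule.pi Set.univ P) (Submodule.pi Set.univ M) = ∑ i, chi (P i) (M i) := by
  classical
  have e1 := Pi_inf P M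
  have e2 : ((ι → V) ⧸ (Submodule.pi Set.univ P ⊔ Submodule.pi Set.univ M)) ≃ₗ[k]
      ∀ i, V ⧸ (P i ⊔ M i) :=
    (Submodule.quotEquivOfEq _ _ (Pi_sup P M)).trans (Submodule.quotientPi fun i => P i ⊔ M i)
  have hf1 : ∀ i, Module.Finite k (P i ⊓ M i : Submodule k V) := fun i => (h i).inf
  have hf2 : ∀ i, Module.Finite k (V ⧸ (P i ⊔ M i)) := fun i => (h i).sup
  refine ⟨⟨Module.Finite.equiv e1.symm, Module.Finite.equiv e2.symm⟩, ?_⟩
  unfold chi
  rw [e1.finrank_eq, e2.finrank_eq, Module.finrank_pi_fintype, Module.finrank_pi_fintype,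
    Finset.sum_sub_distrib]
  push_cast
  rfl

end Pool.Agent.GBC
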