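import Pool.Agent.Lib.GBC.Lam.Loc
import Pool.Agent.Lib.GBC.P.Comp

/-!
Module Lam.Val of GBC. If `c₀ ∈ S` is a unit up to squares at all finite places then the ideal `(c₀)` is
a square.

PROOF. `S` is a domain (`isDomain_S`) and a Dedekind domain (`isDedekind_adjoinRoot`). Let `q` be a
nonzero prime ideal of `S`, `v` the multiplicity of `q` in the factorization of ideals
(`(normalizedFactors (span {x})).count q`, additive in `x ≠ 0`; `v (x) = 0` iff `x ∉ q`).
`P = q.comap (AdjoinRoot.of f)` is a maximal ideal of `A` (integrality of `S` over `A`: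
`Ideal.isMaximal_comap_of_isIntegral_of_isMaximal`), so `P = prime w` (`prime_surj`). There is
`L : LocK w.1` (`exists_locK`, the residue field is finite: `fin_κ`). By `local_sq` there are
`s ∉ P`, so `v (s) = 0`; `s₁ s₂ = s ^ 2` gives `v (s₁) + v (s₂) = 0`, `v (s₁) = 0`; and
`v (c₀) + 2 v (x₂) = 2 v (x₁)`, so `v (c₀)` is even. In a Dedekind domain an ideal `I ≠ 0` all of whose
multiplicities are even is a square (`I = ∏ q ^ (v_q)`; `normalizedFactors I = 2 • s`, `Q = s.prod`,
`Multiset` with even counts).
-/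

set_option autoImplicit false

open Polynomial

namespace Pool.Agent.GBC

open Pool.Agent.BSDP Pool.Agent.BSDFF Pool.Agent.HYP

variable {k K : Type} [Field k] [Field K] [Algebra k K] (G : Geo k K) {f : G.A[X]}

private theorem lamval_half {α : Type} [DecidableEq α] (s : Multiset α)
    (h : ∀ a ∈ s, Even (s.count a)) : ∃ t : Multiset α, s = t + t := by
  refine ⟨∑ a ∈ s.toFinset, Multiset.replicate (s.count a / 2) a, ?_⟩
  ext a
  rw [Multiset.count_add]
  have h1 : Multiset.count a (∑ b ∈ s.toFinset, Multiset.replicate (s.count b / 2) b) =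
      s.count a / 2 := by
    rw [Multiset.count_sum']
    by_cases ha : a ∈ s
    · rw [Finset.sum_eq_single a]
      · rw [Multiset.count_replicate_self]
      · intro b _ hb
        rw [Multiset.count_replicate, if_neg hb]
      · intro h2
        exact absurd (Multiset.mem_toFinset.2 ha) h2
    · rw [Multiset.count_eq_zero_of_notMem ha]
      refine Finset.sum_eq_zero fun b hb => ?_
      rw [Multiset.count_replicate, if_neg]
      rintro rfl
      exact ha (Multiset.mem_toFinset.1 hb)
  rw [h1]
  by_cases ha : a ∈ s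
  · obtain ⟨n, hn⟩ := h a ha
    omega
  · rw [Multiset.count_eq_zero_of_notMem ha]

theorem exists_sq_ideal [Finite k] (h2 : (2 : k) ≠ 0) (hf : f.Monic)
    (hi : Irreducible (G.fK f)) (hreg : ∀ P : Ideal G.A, P.IsMaximal → RegI P f)
    (c₀ : AdjoinRoot f) (h0 : c₀ ≠ 0)
    (hc : ∀ w : G.FP, ∀ L : LocK w.1,
      UnitAt L.toLoc (bc w.1.toCompletion (G.fK f) (bc (algebraMap G.A K) f c₀))) :
    ∃ Q : Ideal (AdjoinRoot f), Q ^ 2 = Ideal.span {c₀} := by
  classical
  have hdom : IsDomain (AdjoinRoot f) := isDomain_S G hf hi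
  have hded : IsDedekindDomain (AdjoinRoot f) := isDedekind_adjoinRoot hf hdom hreg
  have hne : ∀ x : AdjoinRoot f, x ≠ 0 → Ideal.span {x} ≠ 0 := by
    intro x hx h
    rw [Ideal.zero_eq_bot, Ideal.span_singleton_eq_bot] at h
    exact hx h
  have heven : ∀ q ∈ UniqueFactorizationMonoid.normalizedFactors (Ideal.span {c₀}),
      Even ((UniqueFactorizationMonoid.normalizedFactors (Ideal.span {c₀})).count q) := by
    intro q hq
    have hqp : Prime q := UniqueFactorizationMonoid.prime_of_normalized_factor q hq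
    have hq0 : q ≠ ⊥ := hqp.ne_zero
    have hqprime : q.IsPrime := Ideal.isPrime_of_prime hqp
    have hqmax : q.IsMaximal := hqprime.isMaximal hq0
    have hfin : Module.Finite G.A (AdjoinRoot f) := hf.finite_adjoinRoot
    have hint : Algebra.IsIntegral G.A (AdjoinRoot f) := Algebra.IsIntegral.of_finite _ _
    have hPmax : (q.comap (algebraMap G.A (AdjoinRoot f))).IsMaximal :=
      Ideal.isMaximal_comap_of_isIntegral_of_isMaximal q
    obtain ⟨w, hw⟩ := G.prime_surj _ hPmax
    obtain ⟨L, -⟩ := exists_locK h2 w.1 (G.fin_κ w)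
    obtain ⟨s, x₁, x₂, s₁, s₂, hs, hx₁, hx₂, hss, hcs⟩ := local_sq G hf hi w L c₀ (hc w L)
    have hsq : AdjoinRoot.of f s ∉ q := by
      intro h
      apply hs
      rw [hw]
      exact h
    have hs0 : AdjoinRoot.of f s ≠ 0 := fun h => hsq (by rw [h]; exact q.zero_mem)
    have hs₁ : s₁ ≠ 0 := by
      rintro rfl
      rw [zero_mul] at hss
      exact pow_ne_zero 2 hs0 hss.symm
    have hs₂ : s₂ ≠ 0 := by
      rintro rfl
      rw [mul_zero] at hss
      exact pow_ne_zero 2 hs0 hss.symm
    have hmul : ∀ x y : AdjoinRoot f, x ≠ 0 → y ≠ 0 →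
        (UniqueFactorizationMonoid.normalizedFactors (Ideal.span {x * y})).count q =
        (UniqueFactorizationMonoid.normalizedFactors (Ideal.span {x})).count q +
        (UniqueFactorizationMonoid.normalizedFactors (Ideal.span {y})).count q := by
      intro x y hx hy
      rw [← Ideal.span_singleton_mul_span_singleton,
        UniqueFactorizationMonoid.normalizedFactors_mul (hne x hx) (hne y hy), Multiset.count_add]
    have hsv : (UniqueFactorizationMonoid.normalizedFactors
        (Ideal.span {AdjoinRoot.of f s})).count q = 0 := by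
      apply Multiset.count_eq_zero_of_notMem
      intro h
      have h3 := UniqueFactorizationMonoid.dvd_of_mem_normalizedFactors h
      rw [Ideal.dvd_span_singleton] at h3
      exact hsq h3
    have e1 := congrArg (fun x => (UniqueFactorizationMonoid.normalizedFactors
      (Ideal.span {x})).count q) hss
    have e2 := congrArg (fun x => (UniqueFactorizationMonoid.normalizedFactors
      (Ideal.span {x})).count q) hcs
    simp only [pow_two] at e1 e2
    rw [hmul _ _ hs₁ hs₂, hmul _ _ hs0 hs0, hsv] at e1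
    rw [hmul _ _ (mul_ne_zero h0 (mul_ne_zero hx₂ hx₂)) hs0, hmul _ _ h0 (mul_ne_zero hx₂ hx₂),
      hmul _ _ hx₂ hx₂, hsv, hmul _ _ hs₁ (mul_ne_zero hx₁ hx₁), hmul _ _ hx₁ hx₁] at e2
    rw [Nat.even_iff]
    omega
  obtain ⟨t, ht⟩ := lamval_half _ heven
  refine ⟨t.prod, ?_⟩
  have h4 := Ideal.prod_normalizedFactors_eq_self (hne c₀ h0)
  rw [← h4, ht, Multiset.prod_add, pow_two]

end Pool.Agent.GBC
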